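import Pool.Agent.Helper82.RD.Defs

/-!
# Project RD (MP_86d903_lc): module TRI, the rules without division
-/

set_option autoImplicit false

open Finset MP86d903

namespace Pool.Agent.Helper82.RD

variable {ι V : Type} [DecidableEq ι] [Fintype ι] [Fintype V] [DecidableEq V]
  {vs ng : ι → Finset V} {q : ℕ}

theorem mTRI_clause {Z : Finset V} {ρ : V → Bool} (hSb : SPb vs Z) (hval : Valid vs ng ρ Z)
    (hng : ∀ c, ng c ⊆ vs c) (c : ι) (a : V → ℤ) (b : ℤ)
    (ha : ∀ i, a i = if i ∈ ng c then -1 else if i ∈ vs c then 1 else 0)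
    (hb : b = 1 - (ng c).card) : 2 * b ≤ ∑ i, a i * pt Z ρ i := by
  classical
  -- value of the literal at i, doubled
  set lv : V → ℤ := fun i => if i ∈ ng c then 2 - pt Z ρ i else pt Z ρ i with hlv
  have hsum : ∑ i, a i * pt Z ρ i = ∑ i ∈ vs c, lv i - 2 * (ng c).card := by
    have h1 : ∀ i, a i * pt Z ρ i =
        (if i ∈ vs c then lv i else 0) - 2 * (if i ∈ ng c then 1 else 0) := by
      intro i
      rw [ha i]
      by_cases h1 : i ∈ ng c
      · rw [if_pos h1, if_pos (hng c h1), if_pos h1]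
        simp only [hlv, if_pos h1]
        ring
      · rw [if_neg h1, if_neg h1]
        by_cases h2 : i ∈ vs c
        · rw [if_pos h2, if_pos h2]
          simp only [hlv, if_neg h1]
          ring
        · rw [if_neg h2, if_neg h2]
          ring
    rw [sum_congr rfl (fun i _ => h1 i), sum_sub_distrib, ← mul_sum]
    simp
  have hlv0 : ∀ i, 0 ≤ lv i := by
    intro i
    simp only [hlv]
    have h1 := pt_nonneg Z ρ i
    have h2 := pt_le_two Z ρ i
    split_ifs <;> omega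
  have hmain : 2 ≤ ∑ i ∈ vs c, lv i := by
    by_cases hcA : vs c ⊆ Z
    · obtain ⟨i, hi, hl⟩ := hval c hcA
      have h2 : lv i = 2 := by
        simp only [hlv, pt, if_pos (hcA hi)]
        unfold Lit at hl
        by_cases h1 : i ∈ ng c
        · simp only [h1, decide_true, Bool.not_true] at hl
          simp [h1, hl]
        · simp only [h1, decide_false, Bool.not_false] at hl
          simp [h1, hl]
      have := single_le_sum (f := lv) (fun j _ => hlv0 j) hi
      omega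
    · have h1 := hSb c hcA
      have h2 : ∀ i ∈ vs c \ Z, lv i = 1 := by
        intro i hi
        have := (mem_sdiff.mp hi).2
        simp only [hlv, pt, if_neg this]
        split_ifs <;> norm_num
      have h3 : ∑ i ∈ vs c \ Z, lv i ≤ ∑ i ∈ vs c, lv i :=
        sum_le_sum_of_subset_of_nonneg sdiff_subset (fun i _ _ => hlv0 i)
      rw [sum_congr rfl h2] at h3
      simp only [sum_const, nsmul_eq_mul, mul_one] at h3
      have h4 : (2 : ℤ) ≤ ((vs c \ Z).card : ℤ) := by exact_mod_cast h1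
      omega
  rw [hsum, hb]
  omega

theorem mTRI_killed {Z Z₀ : Finset V} {ρ ρ₀ : V → Bool} (h0 : Z₀ ⊆ Z) (hρ : ∀ i ∈ Z₀, ρ i = ρ₀ i)
    (a : V → ℤ) (b : ℤ) (H : Finset V) (hH : H ⊆ Z₀) (hval : ∀ i ∈ H, ρ₀ i = decide (0 < a i))
    (hsum : b + ∑ i, max (-(a i)) 0 ≤ ∑ i ∈ H, |a i|) : 2 * b ≤ ∑ i, a i * pt Z ρ i := by
  classical
  have key : ∀ i, (if i ∈ H then 2 * |a i| else 0) - 2 * max (-(a i)) 0 ≤ a i * pt Z ρ i := by
    intro i
    have h1 := pt_nonneg Z ρ i
    have h2 := pt_le_two Z ρ i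
    by_cases hi : i ∈ H
    · rw [if_pos hi]
      have h3 := hval i hi
      have h4 : pt Z ρ i = if 0 < a i then 2 else 0 := by
        unfold pt
        rw [if_pos (h0 (hH hi)), hρ i (hH hi), h3]
        simp
      rw [h4]
      by_cases hp : 0 < a i
      · rw [if_pos hp, abs_of_pos hp, max_eq_right (by omega)]
        omega
      · rw [if_neg hp, abs_of_nonpos (by omega), max_eq_left (by omega)]
        omega
    · rw [if_neg hi]
      rcases le_total 0 (a i) with hp | hp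
      · rw [max_eq_right (by omega)]
        have := mul_nonneg hp h1
        omega
      · rw [max_eq_left (by omega)]
        nlinarith
  have h5 := Finset.sum_le_sum (s := univ) (fun i _ => key i)
  rw [sum_sub_distrib, ← mul_sum, ← sum_filter, ← mul_sum] at h5
  have h6 : (univ.filter (fun i => i ∈ H)) = H := by
    ext i
    simp
  rw [h6] at h5
  omega

/-- Module TRI. -/
theorem mTRI {T₀ T₁ : Finset V} {ρ₀ : V → Bool} {w τ r : ℕ}
    {Λ : Submodule (ZMod 2) (V → ZMod 2)} (hT : T₀ ⊆ T₁) :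
    ((∀ c, ng c ⊆ vs c) → ∀ (c : ι) (a : V → ℤ) (b : ℤ),
      (∀ i, a i = if i ∈ ng c then -1 else if i ∈ vs c then 1 else 0) →
      b = 1 - (ng c).card → Hd vs ng q T₀ T₁ ρ₀ w τ r Λ a b) ∧
    (∀ v, Hd vs ng q T₀ T₁ ρ₀ w τ r Λ (Pi.single v 1) 0) ∧
    (∀ v, Hd vs ng q T₀ T₁ ρ₀ w τ r Λ (Pi.single v (-1)) (-1)) ∧
    (∀ (a a₁ a₂ : V → ℤ) (b b₁ b₂ : ℤ) (α β : ℕ), (∀ i, a i = α * a₁ i + β * a₂ i) →
      b = α * b₁ + β * b₂ → Hd vs ng q T₀ T₁ ρ₀ w τ r Λ a₁ b₁ →
      Hd vs ng q T₀ T₁ ρ₀ w τ r Λ a₂ b₂ → Hd vs ng q T₀ T₁ ρ₀ w τ r Λ a b) ∧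
    ∀ (a : V → ℤ) (b : ℤ) (H : Finset V), H ⊆ Cl vs q T₀ → (∀ i ∈ H, ρ₀ i = decide (0 < a i)) →
      b + ∑ i, max (-(a i)) 0 ≤ ∑ i ∈ H, |a i| → Hd vs ng q T₀ T₁ ρ₀ w τ r Λ a b := by
  refine ⟨?_, ?_, ?_, ?_, ?_⟩
  · rintro hng c a b ha hb Z ρ ⟨T, J, P, -, -, -, -, -, -, hSb, hval, -, -⟩
    exact mTRI_clause hSb hval hng c a b ha hb
  · intro v Z ρ _
    rw [Finset.sum_eq_single v]
    · have := pt_nonneg Z ρ v
      simp
      exact this
    · intro i _ hi
      rw [Pi.single_eq_of_ne hi, zero_mul]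
    · intro h
      exact absurd (mem_univ v) h
  · intro v Z ρ _
    rw [Finset.sum_eq_single v]
    · have := pt_le_two Z ρ v
      simp
      omega
    · intro i _ hi
      rw [Pi.single_eq_of_ne hi, zero_mul]
    · intro h
      exact absurd (mem_univ v) h
  · intro a a₁ a₂ b b₁ b₂ α β ha hb h₁ h₂ Z ρ hF
    have e1 := h₁ Z ρ hF
    have e2 := h₂ Z ρ hF
    have e3 : ∑ i, a i * pt Z ρ i =
        α * ∑ i, a₁ i * pt Z ρ i + β * ∑ i, a₂ i * pt Z ρ i := by
      rw [mul_sum, mul_sum, ← sum_add_distrib]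
      refine sum_congr rfl (fun i _ => ?_)
      rw [ha i]
      ring
    rw [e3, hb]
    have f1 := mul_le_mul_of_nonneg_left e1 (Int.natCast_nonneg α)
    have f2 := mul_le_mul_of_nonneg_left e2 (Int.natCast_nonneg β)
    linarith
  · rintro a b H hH hval hsum Z ρ ⟨T, J, P, hZ, -, -, -, -, -, -, -, hρ, -⟩
    have h0 : Cl vs q T₀ ⊆ Z := by
      rw [hZ]
      exact (Cl_mono (hT.trans subset_union_left)).trans subset_union_left
    exact mTRI_killed h0 hρ a b H hH hval hsum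

end Pool.Agent.Helper82.RD
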